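import Pool.Agent.J4H25.NPP.Stm

set_option autoImplicit false

/-!
# Project NPP of helper25, job UP (helper45): upper bounds for the numbers of hits
-/

namespace Pool.Agent.J4H45.NPP

open MeasureTheory Pool.Agent.NPC Pool.Agent.H628R3.RO Pool.Agent.J4H45.OPT Pool.Agent.J4H25.NPP
open Pool.Agent.J4H45.EXP (wds mem_wds card_wds measure_inter_of_disjoint)
open Pool.Agent.H628R3.RO.M2 (hit_iff card_spots spots_disjoint mem_spots measurableSet_hit)

/-- all strings of `J` are in the oracle -/
def On (J : Finset (List Bool)) : Set Oracle := {A | ∀ x ∈ J, A x = true}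

theorem loc_On (J : Finset (List Bool)) : Loc (J : Set (List Bool)) (On J) := by
  intro A A' h
  unfold On
  simp only [Set.mem_ofPred_eq]
  exact forall₂_congr fun x hx => by rw [h x hx]

theorem measurable_On (J : Finset (List Bool)) : MeasurableSet (On J) :=
  measurableSet_of_loc J.finite_toSet (loc_On J)

theorem measure_On (J : Finset (List Bool)) : randomOracle (On J) = 2⁻¹ ^ J.card := by
  have h1 := prob_agree J.toList J.nodup_toList (fun _ => true)
  have h2 : {A : Oracle | ∀ x ∈ J.toList, A x = true} = On J := by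
    ext A
    unfold On
    simp only [Finset.mem_toList]
  rw [h2, Finset.length_toList] at h1
  unfold prob Measure.real at h1
  rw [← ENNReal.ofReal_toReal (measure_ne_top randomOracle (On J)), h1,
    ENNReal.ofReal_pow (by norm_num)]
  congr 1
  rw [one_div, ENNReal.ofReal_inv_of_pos (by norm_num)]
  norm_num

theorem measure_inter_On {n : ℕ} {R : Set Oracle} (hR : Loc {x | x.length ≤ n} R)
    {J : Finset (List Bool)} (hJ : ∀ x ∈ J, n < x.length) :
    randomOracle (R ∩ On J) = randomOracle R * 2⁻¹ ^ J.card := by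
  rw [measure_inter_of_disjoint (finite_length_le n) J.finite_toSet ?_ hR (loc_On J),
    measure_On]
  rw [Set.disjoint_left]
  intro x hx hx'
  have := hJ x hx'
  simp only [Set.mem_ofPred_eq] at hx
  omega

/-- all candidates in `L` are hits -/
def ev (m : ℕ) (L : Finset Cand) : Set Oracle := {A | ∀ κ ∈ L, Hit m κ A}

theorem ev_eq (m : ℕ) (L : Finset Cand) : ev m L = On (L.biUnion (spots m)) := by
  ext A
  unfold ev On
  simp only [Set.mem_ofPred_eq, Finset.mem_biUnion]
  constructor
  · rintro h x ⟨κ, hκ, hx⟩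
    exact hit_iff.1 (h κ hκ) x hx
  · intro h κ hκ
    exact hit_iff.2 fun x hx => h x ⟨κ, hκ, hx⟩

theorem card_ev (m : ℕ) (L : Finset Cand) : (L.biUnion (spots m)).card = L.card * m := by
  rw [Finset.card_biUnion]
  · rw [Finset.sum_congr rfl fun κ _ => card_spots m κ, Finset.sum_const, smul_eq_mul]
  · intro κ _ κ' _ hne
    rw [Function.onFun, Finset.disjoint_left]
    intro x hx hx'
    exact hne (spots_disjoint hx hx')

theorem measure_ev {n m : ℕ} {R : Set Oracle} (hR : Loc {x | x.length ≤ n} R) {L : Finset Cand}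
    (hL : ∀ κ ∈ L, κ.2.length = n) :
    randomOracle (R ∩ ev m L) = randomOracle R * 2⁻¹ ^ (L.card * m) := by
  rw [ev_eq, measure_inter_On hR, card_ev]
  intro x hx
  obtain ⟨κ, hκ, hx'⟩ := Finset.mem_biUnion.1 hx
  obtain ⟨i, -, rfl⟩ := mem_spots.1 hx'
  rw [length_pos, hL κ hκ]
  omega

theorem measurable_ev (m : ℕ) (L : Finset Cand) : MeasurableSet (ev m L) := by
  rw [ev_eq]
  exact measurable_On _

/-- comparison of sums of probabilities -/
theorem sum_le_of_count {ι κ : Type} (I : Finset ι) (B : ι → Set Oracle) (J : Finset κ)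
    (D : κ → Set Oracle) {S0 : Set Oracle} (hB : ∀ i, MeasurableSet (B i))
    (hD : ∀ i, MeasurableSet (D i)) (hS : MeasurableSet S0)
    (h : ∀ A, ∑ i ∈ I, (B i).indicator (fun _ => (1 : ENNReal)) A ≤
      S0.indicator (fun _ => 1) A + ∑ j ∈ J, (D j).indicator (fun _ => 1) A) :
    ∑ i ∈ I, randomOracle (B i) ≤ randomOracle S0 + ∑ j ∈ J, randomOracle (D j) := by
  have e1 : ∀ X : Set Oracle, MeasurableSet X →
      ∫⁻ A, X.indicator (fun _ => (1 : ENNReal)) A ∂randomOracle = randomOracle X := by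
    intro X hX
    rw [lintegral_indicator_const hX, one_mul]
  have m1 : ∀ X : Set Oracle, MeasurableSet X →
      Measurable (X.indicator (fun _ => (1 : ENNReal))) :=
    fun X hX => measurable_const.indicator hX
  calc ∑ i ∈ I, randomOracle (B i)
      = ∑ i ∈ I, ∫⁻ A, (B i).indicator (fun _ => (1 : ENNReal)) A ∂randomOracle :=
        Finset.sum_congr rfl fun i _ => (e1 _ (hB i)).symm
    _ = ∫⁻ A, ∑ i ∈ I, (B i).indicator (fun _ => (1 : ENNReal)) A ∂randomOracle :=
        (lintegral_finsetSum' _ fun i _ => (m1 _ (hB i)).aemeasurable).symm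
    _ ≤ ∫⁻ A, (S0.indicator (fun _ => 1) A + ∑ j ∈ J, (D j).indicator (fun _ => 1) A)
          ∂randomOracle := lintegral_mono h
    _ = ∫⁻ A, S0.indicator (fun _ => 1) A ∂randomOracle +
          ∫⁻ A, ∑ j ∈ J, (D j).indicator (fun _ => 1) A ∂randomOracle :=
        lintegral_add_left (m1 _ hS) _
    _ = randomOracle S0 + ∑ j ∈ J, randomOracle (D j) := by
        rw [e1 _ hS, lintegral_finsetSum' _ fun i _ => (m1 _ (hD i)).aemeasurable]
        congr 1
        exact Finset.sum_congr rfl fun i _ => e1 _ (hD i)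

open Classical in
/-- the number of the sets of `k` hits -/
theorem sum_ev (W : Finset Cand) (m k : ℕ) {R : Set Oracle} {A : Oracle} (hA : A ∈ R) :
    ∑ L ∈ W.powersetCard k, (R ∩ ev m L).indicator (fun _ => (1 : ENNReal)) A =
      (((W.filter (fun κ => Hit m κ A)).card.choose k : ℕ) : ENNReal) := by
  rw [← Finset.card_powersetCard]
  simp only [Set.indicator_apply]
  rw [Finset.sum_boole]
  congr 2
  ext L
  rw [Finset.mem_filter, Finset.mem_powersetCard, Finset.mem_powersetCard]
  constructor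
  · rintro ⟨⟨h1, h2⟩, h3⟩
    refine ⟨fun κ hκ => Finset.mem_filter.2 ⟨h1 hκ, h3.2 κ hκ⟩, h2⟩
  · rintro ⟨h1, h2⟩
    exact ⟨⟨fun κ hκ => (Finset.mem_filter.1 (h1 hκ)).1, h2⟩, hA,
      fun κ hκ => (Finset.mem_filter.1 (h1 hκ)).2⟩

theorem choose_two_le (N : ℕ) : N ≤ 1 + N.choose 2 := by
  induction N with
  | zero => omega
  | succ N ih =>
    have : (N + 1).choose 2 = N.choose 1 + N.choose 2 := Nat.choose_succ_succ N 1
    rw [Nat.choose_one_right] at this
    omega

theorem sq_le_choose (s : ℕ) : s ^ 2 ≤ 5 + 4 * s.choose 3 := by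
  rcases Nat.lt_or_ge s 3 with h | h
  · interval_cases s <;> norm_num [Nat.choose]
  · induction s, h using Nat.le_induction with
    | base => norm_num [Nat.choose]
    | succ s hs ih =>
      have h1 : (s + 1).choose 3 = s.choose 2 + s.choose 3 := Nat.choose_succ_succ s 2
      have h2 : s ≤ s.choose 2 := by
        clear ih h1
        induction s, hs using Nat.le_induction with
        | base => norm_num [Nat.choose]
        | succ s hs ih =>
          have : (s + 1).choose 2 = s.choose 1 + s.choose 2 := Nat.choose_succ_succ s 1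
          rw [Nat.choose_one_right] at this
          omega
      have h3 : (s + 1) ^ 2 = s ^ 2 + 2 * s + 1 := by ring
      omega

theorem mul_le_choose (x y : ℕ) : x * y ≤ 1 + (x + y).choose 3 := by
  have h1 := sq_le_choose (x + y)
  have h2 : 4 * (x * y) ≤ (x + y) ^ 2 := by nlinarith [sq_nonneg ((x : ℤ) - y), four_mul_le_sq_add x y]
  omega

theorem sum_measure_ev {n a : ℕ} {R : Set Oracle} (hR : Loc {x | x.length ≤ n} R)
    {W : Finset Cand} (hW : ∀ κ ∈ W, κ.2.length = n) (hWc : W.card = 2 ^ (n + 1)) (k : ℕ) :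
    ∑ L ∈ W.powersetCard k, randomOracle (R ∩ ev (n + a) L) ≤
      2 ^ k * 2⁻¹ ^ (k * a) * randomOracle R := by
  have h1 : ∀ L ∈ W.powersetCard k, randomOracle (R ∩ ev (n + a) L) =
      randomOracle R * 2⁻¹ ^ (k * (n + a)) := by
    intro L hL
    rw [Finset.mem_powersetCard] at hL
    rw [measure_ev hR fun κ hκ => hW κ (hL.1 hκ), hL.2]
  rw [Finset.sum_congr rfl h1, Finset.sum_const, Finset.card_powersetCard, hWc, nsmul_eq_mul]
  have h2 : (((2 ^ (n + 1)).choose k : ℕ) : ENNReal) ≤ 2 ^ (k * n) * 2 ^ k := by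
    have h3 : (2 ^ (n + 1)).choose k ≤ (2 ^ (n + 1)) ^ k := Nat.choose_le_pow _ _
    have h4 : (2 ^ (n + 1)) ^ k = 2 ^ (k * n) * 2 ^ k := by rw [← pow_mul, ← pow_add]; congr 1; ring
    rw [h4] at h3
    exact_mod_cast h3
  calc (((2 ^ (n + 1)).choose k : ℕ) : ENNReal) * (randomOracle R * 2⁻¹ ^ (k * (n + a)))
      ≤ 2 ^ (k * n) * 2 ^ k * (randomOracle R * 2⁻¹ ^ (k * (n + a))) := by gcongr
    _ = (2 ^ (k * n) * 2⁻¹ ^ (k * n)) * (2 ^ k * 2⁻¹ ^ (k * a) * randomOracle R) := by
        rw [mul_add, pow_add]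
        ring
    _ = 2 ^ k * 2⁻¹ ^ (k * a) * randomOracle R := by
        rw [← mul_pow, ENNReal.mul_inv_cancel (by norm_num) (by norm_num), one_pow, one_mul]

/-- the candidates -/
def Wn (n : ℕ) : Finset Cand := (Finset.range 2) ×ˢ (wds n)

theorem mem_Wn {n : ℕ} {κ : Cand} : κ ∈ Wn n ↔ κ.1 < 2 ∧ κ.2.length = n := by
  unfold Wn
  rw [Finset.mem_product, Finset.mem_range, mem_wds]

theorem card_Wn (n : ℕ) : (Wn n).card = 2 ^ (n + 1) := by
  unfold Wn
  rw [Finset.card_product, Finset.card_range, card_wds, pow_succ, mul_comm]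

open Classical in
/-- **Job UP.** -/
theorem t_UP : S_UP := by
  intro n a R S hR hS
  have hRm : MeasurableSet R := measurableSet_of_loc (finite_length_le n) hR
  have hRS : MeasurableSet (R ∩ S) := hRm.inter hS
  have hsum : ∀ A : Oracle, ∑ κ ∈ Wn n, (if Hit (n + a) κ A then (1 : ENNReal) else 0) =
      (((Wn n).filter (fun κ => Hit (n + a) κ A)).card : ENNReal) := by
    intro A
    rw [Finset.sum_boole]
  -- the two copies
  have hsplit : ∀ A : Oracle, ((Wn n).filter (fun κ => Hit (n + a) κ A)).card =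
      ((wds n).filter (fun w => Hit (n + a) (0, w) A)).card +
        ((wds n).filter (fun w => Hit (n + a) (1, w) A)).card := by
    intro A
    rw [Finset.card_filter, Finset.card_filter, Finset.card_filter]
    unfold Wn
    rw [Finset.sum_product, Finset.sum_range_succ, Finset.sum_range_one]
  refine ⟨?_, ?_, ?_⟩
  · have h1 := sum_le_of_count (Wn n) (fun κ => R ∩ S ∩ {A | Hit (n + a) κ A})
      ((Wn n).powersetCard 2) (fun L => R ∩ ev (n + a) L) (S0 := R ∩ S)
      (fun κ => hRS.inter (measurableSet_hit _ _)) (fun L => hRm.inter (measurable_ev _ _)) hRS ?_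
    · have h2 := sum_measure_ev (a := a) hR (fun κ hκ => (mem_Wn.1 hκ).2) (card_Wn n) 2
      have e1 : ∑ c ∈ Finset.range 2, ∑ w ∈ wds n,
          randomOracle (R ∩ S ∩ {A | Hit (n + a) (c, w) A}) =
          ∑ κ ∈ Wn n, randomOracle (R ∩ S ∩ {A | Hit (n + a) κ A}) := by
        unfold Wn
        rw [Finset.sum_product]
      rw [e1]
      refine h1.trans ?_
      gcongr
      refine h2.trans (le_of_eq ?_)
      norm_num
    · intro A
      by_cases hA : A ∈ R ∩ S
      · rw [sum_ev (Wn n) (n + a) 2 hA.1, Set.indicator_of_mem hA]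
        have e1 : ∑ κ ∈ Wn n, (R ∩ S ∩ {A | Hit (n + a) κ A}).indicator
            (fun _ => (1 : ENNReal)) A =
            (((Wn n).filter (fun κ => Hit (n + a) κ A)).card : ENNReal) := by
          rw [← hsum A]
          refine Finset.sum_congr rfl fun κ _ => ?_
          rw [Set.indicator_apply]
          refine if_congr ?_ rfl rfl
          exact ⟨fun h => h.2, fun h => ⟨hA, h⟩⟩
        rw [e1]
        exact_mod_cast choose_two_le _
      · have e1 : ∑ κ ∈ Wn n, (R ∩ S ∩ {A | Hit (n + a) κ A}).indicator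
            (fun _ => (1 : ENNReal)) A = 0 := by
          refine Finset.sum_eq_zero fun κ _ => ?_
          exact Set.indicator_of_notMem (fun h => hA h.1) _
        rw [e1]
        exact zero_le
  · have h1 := sum_le_of_count ((wds n) ×ˢ (wds n))
      (fun t => R ∩ S ∩ {A | Hit (n + a) (0, t.1) A ∧ Hit (n + a) (1, t.2) A})
      ((Wn n).powersetCard 3) (fun L => R ∩ ev (n + a) L) (S0 := R ∩ S)
      (fun t => hRS.inter ((measurableSet_hit _ _).inter (measurableSet_hit _ _)))
      (fun L => hRm.inter (measurable_ev _ _)) hRS ?_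
    · have h2 := sum_measure_ev (a := a) hR (fun κ hκ => (mem_Wn.1 hκ).2) (card_Wn n) 3
      rw [Finset.sum_product] at h1
      refine h1.trans ?_
      gcongr
      refine h2.trans (le_of_eq ?_)
      norm_num
    · intro A
      by_cases hA : A ∈ R ∩ S
      · rw [sum_ev (Wn n) (n + a) 3 hA.1, Set.indicator_of_mem hA, hsplit A]
        have e1 : ∑ t ∈ (wds n) ×ˢ (wds n), (R ∩ S ∩ {A | Hit (n + a) (0, t.1) A ∧
            Hit (n + a) (1, t.2) A}).indicator (fun _ => (1 : ENNReal)) A =
            ((((wds n).filter (fun w => Hit (n + a) (0, w) A)).card *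
              ((wds n).filter (fun w => Hit (n + a) (1, w) A)).card : ℕ) : ENNReal) := by
          rw [← Finset.card_product]
          simp only [Set.indicator_apply]
          rw [Finset.sum_boole]
          congr 2
          ext t
          rw [Finset.mem_filter, Finset.mem_product, Finset.mem_product, Finset.mem_filter,
            Finset.mem_filter]
          constructor
          · rintro ⟨⟨h1, h2⟩, h3⟩
            exact ⟨⟨h1, h3.2.1⟩, h2, h3.2.2⟩
          · rintro ⟨⟨h1, h2⟩, h3, h4⟩
            exact ⟨⟨h1, h3⟩, hA, h2, h4⟩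
        rw [e1]
        exact_mod_cast mul_le_choose _ _
      · have e1 : ∑ t ∈ (wds n) ×ˢ (wds n), (R ∩ S ∩ {A | Hit (n + a) (0, t.1) A ∧
            Hit (n + a) (1, t.2) A}).indicator (fun _ => (1 : ENNReal)) A = 0 := by
          refine Finset.sum_eq_zero fun κ _ => ?_
          exact Set.indicator_of_notMem (fun h => hA h.1) _
        rw [e1]
        exact zero_le
  · have hsub : R ∩ {A | (∃ w : List Bool, w.length = n ∧ Hit (n + a) (0, w) A) ∧
        ∃ w : List Bool, w.length = n ∧ Hit (n + a) (1, w) A} ⊆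
        ⋃ t ∈ (wds n) ×ˢ (wds n), (R ∩ ev (n + a) {((0 : ℕ), t.1), (1, t.2)}) := by
      rintro A ⟨hA, ⟨w, hw, h1⟩, w', hw', h2⟩
      rw [Set.mem_iUnion₂]
      refine ⟨(w, w'), Finset.mem_product.2 ⟨mem_wds.2 hw, mem_wds.2 hw'⟩, hA, ?_⟩
      intro κ hκ
      rw [Finset.mem_insert, Finset.mem_singleton] at hκ
      rcases hκ with rfl | rfl
      · exact h1
      · exact h2
    refine (measure_mono hsub).trans ((measure_biUnion_finset_le _ _).trans ?_)
    have h1 : ∀ t ∈ (wds n) ×ˢ (wds n),
        randomOracle (R ∩ ev (n + a) {((0 : ℕ), t.1), (1, t.2)}) =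
          randomOracle R * 2⁻¹ ^ (2 * (n + a)) := by
      intro t ht
      rw [Finset.mem_product, mem_wds, mem_wds] at ht
      rw [measure_ev hR]
      · rw [Finset.card_pair]
        intro h
        rw [Prod.mk.injEq] at h
        exact absurd h.1 (by norm_num)
      · intro κ hκ
        rw [Finset.mem_insert, Finset.mem_singleton] at hκ
        rcases hκ with rfl | rfl
        · exact ht.1
        · exact ht.2
    rw [Finset.sum_congr rfl h1, Finset.sum_const, Finset.card_product, card_wds, nsmul_eq_mul]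
    push_cast
    have e : (2 : ENNReal) ^ n * 2 ^ n * (randomOracle R * 2⁻¹ ^ (2 * (n + a))) =
        (2 ^ (2 * n) * 2⁻¹ ^ (2 * n)) * (2⁻¹ ^ (2 * a) * randomOracle R) := by
      rw [mul_add, pow_add, two_mul n, pow_add 2 n n]
      ring
    rw [e, ← mul_pow, ENNReal.mul_inv_cancel (by norm_num) (by norm_num), one_pow, one_mul]

end Pool.Agent.J4H45.NPP
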