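import Pool.Agent.J4H25.NPP.Stm
import Pool.Agent.J4H45.EXP.Sys
import Pool.Agent.J4H45.OPT.Sys

set_option autoImplicit false

/-!
# Project NPP of helper25, job NP (helper45): the new sets are in `NP`
-/

namespace Pool.Agent.J4H45.NPP

open Pool.Agent.NPC Pool.Agent.H628R3.RO Pool.Agent.J4H45.OPT Pool.Agent.J4H25.NPP
open Pool.Agent.J4H45.EXP (T wds selL selL_map p_selL lg_T p_strs_lg u_lgI ix_le ofL_filter'
  two_pow_T_le T_strictMono le_T mem_wds card_wds u_min length_lt_two_pow foldl_le T_pos)

section

variable (g : List Bool → List Bool)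

/-- membership, for an oracle given by a list -/
def memF (M : Alg) (p : Polynomial ℕ) (L : List (List Bool)) (N : ℕ) (q : List Bool) : Bool :=
  (strs (lg N)).any (fun u => decide (u.length ≤ p.eval q.length) &&
    decide (M.out (ofL L) (pairBits q u) = some [true]))

/-- the number of the good words -/
def goodF (M : Alg) (p : Polynomial ℕ) (c : ℕ) (S : List (List Bool)) (N n m : ℕ)
    (q : List Bool) : ℕ :=
  ((strs (lg N)).filter (fun w => decide (w.length = n) &&
    memF M p ((asks (min m (2 * N + 8)) c w).map g ++ S) N q)).length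

/-- the number of all words -/
def totF (N n : ℕ) : ℕ := ((strs (lg N)).filter (fun w => decide (w.length = n))).length

variable (M : ℕ → Alg) (p : ℕ → Polynomial ℕ) (K i0 : ℕ)

/-- Is the stage captured? (for an oracle given by a list) -/
def capF (S : List (List Bool)) (N n l : ℕ) : Bool :=
  (strs (lg N)).any (fun q => decide (K * q.length.size ≤ n) &&
    (decide (totF N n ≤ 2 * goodF g (M 0) (p 0) 0 S N n (n + ax l) q) &&
      decide (totF N n ≤ 2 * goodF g (M 1) (p 1) 1 S N n (n + ax l) q)))

/-- the level, for an oracle given by a list -/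
def levF (S : List (List Bool)) (N i : ℕ) : ℕ :=
  (List.range (i - i0)).foldl
    (fun l k => l + (if capF g M p K S N (lg^[2 * ((i - i0) - k)] N) l = true then 0 else 1)) 0

/-- the test for the witness `w` and the input `x` -/
def okN (i1 : ℕ) (x w ans : List Bool) : Bool :=
  decide (x = List.replicate x.length false) &&
    (decide (ix x.length = 2 * (ix x.length / 2) + 1) && (decide (i1 ≤ ix x.length / 2) &&
      (decide (w.length = x.length) &&
        ((ans.drop (strs (lg x.length)).length).take
          (min (x.length + ax (levF g M p K i0 (selL (strs (lg x.length)) ans) x.length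
            (ix x.length / 2))) (2 * x.length + 8))).all id)))

end

/-! ### Correctness -/

theorem size_cube_le (m : ℕ) : ((m + 1) ^ 3).size / 4 ≤ m + 1 := by
  have h1 : m + 1 ≤ 2 ^ m := Nat.lt_two_pow_self
  have h2 : (m + 1) ^ 3 ≤ (2 ^ m) ^ 3 := Nat.pow_le_pow_left h1 3
  have h3 : (m + 1) ^ 3 < 2 ^ (3 * m + 1) := by
    rw [← pow_mul] at h2
    have : 2 ^ (m * 3) < 2 ^ (3 * m + 1) := Nat.pow_lt_pow_right (by norm_num) (by omega)
    omega
  have h4 : ((m + 1) ^ 3).size ≤ 3 * m + 1 := Nat.size_le.2 h3
  omega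

theorem ax_le' (m : ℕ) : ax m ≤ m + 8 := by
  have := size_cube_le m
  unfold ax
  omega

theorem mem_asks {m c : ℕ} {w y : List Bool} : y ∈ asks m c w ↔ y ∈ spots m (c, w) := by
  unfold asks spots
  rw [List.mem_map, Finset.mem_image]
  simp only [List.mem_range, Finset.mem_range]

theorem g_inj {O : Oracle → Oracle} (E : Emb2 O) {y y' : List Bool} (h : E.g y = E.g y') :
    y = y' := by
  have h1 := E.emb (fun z => decide (z = y)) y
  have h2 := E.emb (fun z => decide (z = y)) y'
  rw [← h, h1] at h2
  by_contra hne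
  simp only [decide_true] at h2
  have : decide (y' = y) = true := h2.symm
  rw [decide_eq_true_eq] at this
  exact hne this.symm

theorem plant_ofL {O : Oracle → Oracle} (E : Emb2 O) (A : Oracle) {S : List (List Bool)} {b : ℕ}
    (hS : ∀ x : List Bool, x.length ≤ b → ofL S x = O A x) (m c : ℕ) (w : List Bool) :
    ∀ x : List Bool, x.length ≤ b →
      ofL ((asks m c w).map E.g ++ S) x = O (plant (spots m (c, w)) A) x := by
  intro x hx
  have h0 := hS x hx
  unfold ofL at h0 ⊢
  by_cases hg : ∃ y, x = E.g y
  · obtain ⟨y, rfl⟩ := hg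
    rw [E.emb] at h0 ⊢
    unfold plant
    by_cases hy : y ∈ spots m (c, w)
    · rw [if_pos hy, decide_eq_true_eq]
      exact List.mem_append_left _ (List.mem_map.2 ⟨y, mem_asks.2 hy, rfl⟩)
    · rw [if_neg hy, ← h0]
      apply decide_eq_decide.2
      rw [List.mem_append]
      constructor
      · rintro (h | h)
        · obtain ⟨y', hy', he⟩ := List.mem_map.1 h
          have := g_inj E he
          subst this
          exact absurd (mem_asks.1 hy') hy
        · exact h
      · exact Or.inr
  · push Not at hg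
    rw [E.indep x hg (plant (spots m (c, w)) A) A, ← h0]
    apply decide_eq_decide.2
    rw [List.mem_append]
    constructor
    · rintro (h | h)
      · obtain ⟨y', hy', he⟩ := List.mem_map.1 h
        exact absurd he.symm (hg y')
      · exact h
    · exact Or.inr

section

variable {O : Oracle → Oracle} (E : Emb2 O) {M : ℕ → Alg} {p : ℕ → Polynomial ℕ} {K i0 : ℕ}
  (ok : Ok M p K i0)

include ok

theorem memF_iff {i j : ℕ} (hj : i0 ≤ j) (hji : j < i) {B : Oracle} {L : List (List Bool)}
    (hL : ∀ x : List Bool, x.length ≤ lg (T i) → ofL L x = B x) {q : List Bool}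
    (hq : K * q.length.size ≤ T j) {c : ℕ} (hc : c < 2) :
    memF (M c) (p c) L (T i) q = true ↔ Mem (M c) (p c) B q := by
  unfold memF Mem
  rw [List.any_eq_true]
  have h1 := two_pow_T_le hji
  have hcg : ∀ u : List Bool, u.length ≤ (p c).eval q.length →
      (M c).out (ofL L) (pairBits q u) = (M c).out B (pairBits q u) :=
    fun u hu => ok.congr j hj q hq c hc u hu _ _ fun x hx => hL x (hx.trans h1)
  constructor
  · rintro ⟨u, -, hu⟩
    rw [Bool.and_eq_true, decide_eq_true_eq, decide_eq_true_eq] at hu
    exact ⟨u, hu.1, by rw [← hcg u hu.1, hu.2]⟩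
  · rintro ⟨u, hu, ho⟩
    refine ⟨u, mem_strs.2 (hu.trans ((ok.len j hj q hq c hc).trans h1)), ?_⟩
    rw [Bool.and_eq_true, decide_eq_true_eq, decide_eq_true_eq]
    exact ⟨hu, by rw [hcg u hu, ho]⟩

omit ok in
theorem totF_eq {i j : ℕ} (hji : j < i) : totF (T i) (T j) = 2 ^ T j := by
  classical
  unfold totF
  rw [← List.toFinset_card_of_nodup ((nodup_strs _).filter _), ← card_wds]
  congr 1
  ext w
  rw [List.mem_toFinset, List.mem_filter, mem_strs, mem_wds, decide_eq_true_eq]
  constructor
  · exact fun h => h.2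
  · intro h
    refine ⟨?_, h⟩
    have h1 := two_pow_T_le hji
    have h2 : T j < 2 ^ T j := Nat.lt_two_pow_self
    omega

include E in
theorem goodF_eq {i j l : ℕ} (hj : i0 ≤ j) (hji : j < i) (hl : l ≤ j) {A : Oracle}
    {S : List (List Bool)} (hS : ∀ x : List Bool, x.length ≤ lg (T i) → ofL S x = O A x)
    {q : List Bool} (hq : K * q.length.size ≤ T j) {c : ℕ} (hc : c < 2) :
    goodF E.g (M c) (p c) c S (T i) (T j) (T j + ax l) q =
      (good O M p A c (T j) (T j + ax l) q).card := by
  classical
  unfold goodF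
  rw [← List.toFinset_card_of_nodup ((nodup_strs _).filter _)]
  congr 1
  have hm : min (T j + ax l) (2 * T i + 8) = T j + ax l := by
    apply min_eq_left
    have h1 := ax_le' l
    have h2 := le_T j
    have h3 := T_strictMono hji
    omega
  ext w
  unfold good
  rw [List.mem_toFinset, List.mem_filter, mem_strs, Finset.mem_filter, mem_wds,
    Bool.and_eq_true, decide_eq_true_eq, hm,
    memF_iff ok hj hji (plant_ofL E A hS (T j + ax l) c w) hq hc]
  constructor
  · exact fun h => h.2
  · intro h
    refine ⟨?_, h⟩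
    have h1 := two_pow_T_le hji
    have h2 : T j < 2 ^ T j := Nat.lt_two_pow_self
    omega

include E in
theorem capF_iff {i j l : ℕ} (hj : i0 ≤ j) (hji : j < i) (hl : l ≤ j) {A : Oracle}
    {S : List (List Bool)} (hS : ∀ x : List Bool, x.length ≤ lg (T i) → ofL S x = O A x) :
    capF E.g M p K S (T i) (T j) l = true ↔ A ∈ Cap O M p K j l := by
  unfold capF Cap
  rw [List.any_eq_true]
  simp only [Set.mem_ofPred_eq, Bool.and_eq_true, decide_eq_true_eq]
  have h1 := two_pow_T_le hji
  constructor
  · rintro ⟨q, -, h2, h3, h4⟩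
    rw [totF_eq hji, goodF_eq E ok hj hji hl hS h2 (by norm_num)] at h3 h4
    exact ⟨q, h2, h3, h4⟩
  · rintro ⟨q, h2, h3, h4⟩
    refine ⟨q, mem_strs.2 ((length_lt_two_pow ok.pos h2).le.trans h1), h2, ?_, ?_⟩
    · rw [totF_eq hji, goodF_eq E ok hj hji hl hS h2 (by norm_num)]
      exact h3
    · rw [totF_eq hji, goodF_eq E ok hj hji hl hS h2 (by norm_num)]
      exact h4

omit ok in
theorem lv_le' (A : Oracle) (i : ℕ) : lv O M p K i0 A i ≤ i := by
  induction i with
  | zero => exact le_rfl
  | succ i ih =>
    rw [lv]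
    split_ifs <;> omega

omit ok in
theorem lv_zero' (A : Oracle) {i : ℕ} (h : i ≤ i0) : lv O M p K i0 A i = 0 := by
  cases i with
  | zero => rfl
  | succ i => rw [lv, if_pos (by omega)]

include E in
theorem levF_eq {A : Oracle} {i : ℕ} (hi : i0 ≤ i) {S : List (List Bool)}
    (hS : ∀ x : List Bool, x.length ≤ lg (T i) → ofL S x = O A x) :
    levF E.g M p K i0 S (T i) i = lv O M p K i0 A i := by
  have key : ∀ k ≤ i - i0, (List.range k).foldl
      (fun l k => l + (if capF E.g M p K S (T i) (lg^[2 * ((i - i0) - k)] (T i)) l = true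
        then 0 else 1)) 0 = lv O M p K i0 A (i0 + k) := by
    intro k
    induction k with
    | zero =>
      intro _
      rw [lv_zero' A (by omega)]
      rfl
    | succ k ih =>
      intro hk
      rw [List.range_succ, List.foldl_append, ih (by omega)]
      simp only [List.foldl_cons, List.foldl_nil]
      have h1 : lg^[2 * ((i - i0) - k)] (T i) = T (i0 + k) := by
        have h2 := lg_T (i0 + k) ((i - i0) - k)
        have h3 : i0 + k + ((i - i0) - k) = i := by omega
        rwa [h3] at h2
      rw [h1]
      have h4 := capF_iff E ok (A := A) (i := i) (j := i0 + k) (l := lv O M p K i0 A (i0 + k))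
        (by omega) (by omega) (lv_le' A _) hS
      by_cases h5 : A ∈ Cap O M p K (i0 + k) (lv O M p K i0 A (i0 + k))
      · rw [if_pos (h4.2 h5), ← add_assoc, lv, if_neg (by omega), if_pos h5]
      · rw [if_neg (fun h => h5 (h4.1 h)), ← add_assoc, lv, if_neg (by omega), if_neg h5]
  unfold levF
  rw [key _ le_rfl]
  congr 1
  omega

end

/-! ### Polynomial time -/

section

variable {α : Type} [TEnc α] {g : List Bool → List Bool} (hg : Poly g)

theorem p_memF (M : Alg) (p : Polynomial ℕ) {L : α → List (List Bool)} {N : α → ℕ}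
    {q : α → List Bool} (hL : Poly L) (hN : UPoly N) (hq : Poly q) :
    Poly (fun a => memF M p (L a) (N a) (q a)) := by
  have h1 : Poly (fun p : α × List Bool => p.1) := Poly.fst Poly.id
  have h2 : Poly (fun p : α × List Bool => p.2) := Poly.snd Poly.id
  refine NPC.Poly.any (p := fun a u => decide (u.length ≤ p.eval (q a).length) &&
    decide (M.out (ofL (L a)) (pairBits (q a) u) = some [true])) (p_strs_lg hN) (Poly.and ?_ ?_)
  · exact Poly.decide_le (Poly.length h2) (UPoly.eval (UPoly.length (hq.comp h1)) p).toPoly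
  · exact Poly.decide_eq (p_out M (hL.comp h1) (H622R2.poly_pairBits (hq.comp h1) h2))
      (NPC.Poly.const _)

theorem p_totF {N n : α → ℕ} (hN : UPoly N) (hn : Poly n) :
    Poly (fun a => totF (N a) (n a)) := by
  have h1 : Poly (fun p : α × List Bool => p.1) := Poly.fst Poly.id
  have h2 : Poly (fun p : α × List Bool => p.2) := Poly.snd Poly.id
  exact Poly.length (NPC.Poly.filter (p := fun a (w : List Bool) => decide (w.length = n a))
    (p_strs_lg hN) (Poly.decide_eq (Poly.length h2) (hn.comp h1)))

include hg in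
theorem p_goodF (M : Alg) (p : Polynomial ℕ) (c : ℕ) {S : α → List (List Bool)}
    {N n m : α → ℕ} {q : α → List Bool} (hS : Poly S) (hN : UPoly N) (hn : Poly n) (hm : Poly m)
    (hq : Poly q) : Poly (fun a => goodF g M p c (S a) (N a) (n a) (m a) (q a)) := by
  have h1 : Poly (fun p : α × List Bool => p.1) := Poly.fst Poly.id
  have h2 : Poly (fun p : α × List Bool => p.2) := Poly.snd Poly.id
  have h3 : UPoly (fun a => 2 * N a + 8) := UPoly.add (UPoly.mul (UPoly.const 2) hN) (UPoly.const 8)
  have h4 : UPoly (fun a => min (m a) (2 * N a + 8)) := u_min hm h3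
  have h5 : Poly (fun p : α × List Bool =>
      (asks (min (m p.1) (2 * N p.1 + 8)) c p.2).map g ++ S p.1) :=
    Poly.append (NPC.Poly.map (F := fun _ x => g x) (p_asks (h4.comp h1) (UPoly.const c) h2)
      (hg.comp (Poly.snd Poly.id))) (hS.comp h1)
  exact Poly.length (NPC.Poly.filter (p := fun a (w : List Bool) => decide (w.length = n a) &&
    memF M p ((asks (min (m a) (2 * N a + 8)) c w).map g ++ S a) (N a) (q a))
    (p_strs_lg hN) (Poly.and (Poly.decide_eq (Poly.length h2) (hn.comp h1))
      (p_memF M p h5 (hN.comp h1) (hq.comp h1))))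

theorem p_ax {l : α → ℕ} (hl : Poly l) : Poly (fun a => ax (l a)) := by
  have h1 : Poly (fun a => l a + 1) := Poly.succ hl
  have h2 : Poly (fun a => (l a + 1) ^ 3) :=
    (Poly.mul (Poly.mul h1 h1) h1).congr fun a => by ring
  exact Poly.add (NPC.Poly.const 7) (Poly.div (u_size h2).toPoly (NPC.Poly.const 4))

variable (M : ℕ → Alg) (p : ℕ → Polynomial ℕ) (K i0 : ℕ)

include hg in
theorem p_capF {S : α → List (List Bool)} {N n l : α → ℕ} (hS : Poly S) (hN : UPoly N)
    (hn : Poly n) (hl : Poly l) : Poly (fun a => capF g M p K (S a) (N a) (n a) (l a)) := by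
  have h1 : Poly (fun p : α × List Bool => p.1) := Poly.fst Poly.id
  have h2 : Poly (fun p : α × List Bool => p.2) := Poly.snd Poly.id
  have h3 : Poly (fun a => n a + ax (l a)) := Poly.add hn (p_ax hl)
  refine NPC.Poly.any (p := fun a q => decide (K * q.length.size ≤ n a) &&
    (decide (totF (N a) (n a) ≤ 2 * goodF g (M 0) (p 0) 0 (S a) (N a) (n a) (n a + ax (l a)) q) &&
      decide (totF (N a) (n a) ≤ 2 * goodF g (M 1) (p 1) 1 (S a) (N a) (n a) (n a + ax (l a)) q)))
    (p_strs_lg hN) (Poly.and ?_ (Poly.and ?_ ?_))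
  · exact Poly.decide_le (Poly.mul (NPC.Poly.const K) (u_size (Poly.length h2)).toPoly)
      (hn.comp h1)
  · exact Poly.decide_le (p_totF (hN.comp h1) (hn.comp h1)) (Poly.mul (NPC.Poly.const 2)
      (p_goodF hg (M 0) (p 0) 0 (hS.comp h1) (hN.comp h1) (hn.comp h1) (h3.comp h1) h2))
  · exact Poly.decide_le (p_totF (hN.comp h1) (hn.comp h1)) (Poly.mul (NPC.Poly.const 2)
      (p_goodF hg (M 1) (p 1) 1 (hS.comp h1) (hN.comp h1) (hn.comp h1) (h3.comp h1) h2))

include hg in
theorem p_levF {S : α → List (List Bool)} {N i : α → ℕ} (hS : Poly S) (hN : UPoly N)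
    (hi : UPoly i) : Poly (fun a => levF g M p K i0 (S a) (N a) (i a)) := by
  have hd : UPoly (fun a => i a - i0) :=
    UPoly.of_le (Poly.sub hi.toPoly (NPC.Poly.const i0)) hi fun _ => Nat.sub_le _ _
  obtain ⟨r, hr⟩ := uPoly_le hd
  refine NPC.Poly.foldl (l := fun a => List.range (i a - i0)) (s := fun _ => (0 : ℕ))
    (F := fun (a : α) (l k : ℕ) =>
      l + (if capF g M p K (S a) (N a) (lg^[2 * ((i a - i0) - k)] (N a)) l = true then 0 else 1))
    hd.range (NPC.Poly.const 0) ?_ (Polynomial.C 4 * r + Polynomial.C 1) ?_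
  · have h1 : Poly (fun p : α × ℕ × ℕ => p.1) := Poly.fst Poly.id
    have h2 : Poly (fun p : α × ℕ × ℕ => p.2.1) := Poly.fst (Poly.snd Poly.id)
    have h3 : Poly (fun p : α × ℕ × ℕ => p.2.2) := Poly.snd (Poly.snd Poly.id)
    have h4 : UPoly (fun p : α × ℕ × ℕ => (i p.1 - i0) - p.2.2) :=
      UPoly.of_le (Poly.sub (hd.toPoly.comp h1) h3) (hd.comp h1) fun _ => Nat.sub_le _ _
    have h5 : UPoly (fun p : α × ℕ × ℕ => 2 * ((i p.1 - i0) - p.2.2)) :=
      UPoly.mul (UPoly.const 2) h4
    have h6 : UPoly (fun p : α × ℕ × ℕ => lg^[2 * ((i p.1 - i0) - p.2.2)] (N p.1)) :=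
      u_lgI (hN.comp h1) h5
    have h7 : Poly (fun q : α × ℕ × ℕ => capF g M p K (S q.1) (N q.1)
        (lg^[2 * ((i q.1 - i0) - q.2.2)] (N q.1)) q.2.1) :=
      p_capF hg M p K (hS.comp h1) (hN.comp h1) h6.toPoly h2
    exact Poly.add h2 (Poly.ite (Poly.decide_bool h7) (NPC.Poly.const 0) (NPC.Poly.const 1))
  · intro a k _
    have h1 := foldl_le (fun l k => capF g M p K (S a) (N a)
      (lg^[2 * ((i a - i0) - k)] (N a)) l) ((List.range (i a - i0)).take k) 0
    have h2 : ((List.range (i a - i0)).take k).length ≤ i a - i0 := by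
      rw [List.length_take, List.length_range]
      exact min_le_right _ _
    have h3 := hr a
    set v := ((List.range (i a - i0)).take k).foldl (fun l k =>
      l + (if capF g M p K (S a) (N a) (lg^[2 * ((i a - i0) - k)] (N a)) l = true then 0 else 1)) 0
      with hv
    have h4 := sz_nat_le v
    have h5 := Poly.size_le_self v
    simp only [Polynomial.eval_add, Polynomial.eval_mul, Polynomial.eval_C]
    omega

include hg in
theorem p_okN (i1 : ℕ) {x w ans : α → List Bool} (hx : Poly x) (hw : Poly w) (ha : Poly ans) :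
    Poly (fun a => okN g M p K i0 i1 (x a) (w a) (ans a)) := by
  have h1 : UPoly (fun a => (x a).length) := UPoly.length hx
  have h3 : UPoly (fun a => ix (x a).length) := UPoly.of_le (p_ix h1) h1 fun _ => ix_le _
  have h4 : UPoly (fun a => ix (x a).length / 2) :=
    UPoly.of_le (Poly.div h3.toPoly (NPC.Poly.const 2)) h3 fun _ => Nat.div_le_self _ _
  have h5 : Poly (fun a => strs (lg (x a).length)) := p_strs_lg h1
  have h6 : Poly (fun a => levF g M p K i0 (selL (strs (lg (x a).length)) (ans a)) (x a).length
      (ix (x a).length / 2)) := p_levF hg M p K i0 (p_selL h5 ha) h1 h4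
  have h7 : UPoly (fun a => 2 * (x a).length + 8) :=
    UPoly.add (UPoly.mul (UPoly.const 2) h1) (UPoly.const 8)
  have h8 : UPoly (fun a => min ((x a).length + ax (levF g M p K i0
      (selL (strs (lg (x a).length)) (ans a)) (x a).length (ix (x a).length / 2)))
      (2 * (x a).length + 8)) := u_min (Poly.add h1.toPoly (p_ax h6)) h7
  refine Poly.and (Poly.decide_eq hx (p_replicate h1 false)) (Poly.and
    (Poly.decide_eq h3.toPoly (Poly.succ (Poly.mul (NPC.Poly.const 2) h4.toPoly)))
    (Poly.and (Poly.decide_le (NPC.Poly.const i1) h4.toPoly)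
      (Poly.and (Poly.decide_eq (Poly.length hw) h1.toPoly)
        (p_all_id (p_take (p_drop ha (UPoly.length h5)) h8)))))

end

/-! ### The theorem -/

theorem selL_append (l : List (List Bool)) (f : List Bool → Bool) (r : List Bool) :
    selL l (l.map f ++ r) = l.filter f := by
  rw [← selL_map f l]
  unfold selL
  congr 2
  have : l.zip (l.map f ++ r) = l.zip (l.map f) := by
    have h := List.zip_append (l₁ := l) (r₁ := []) (l₂ := l.map f) (r₂ := r) (by simp)
    simpa using h
  rw [this]

theorem take_asks {m m' c : ℕ} (h : m ≤ m') (w : List Bool) :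
    (asks m' c w).take m = asks m c w := by
  unfold asks
  rw [← List.map_take, List.take_range, min_eq_left h]

/-- **Job NP.** -/
theorem t_NP : S_NP := by
  intro O E M p K i0 ok i1 hi1 A c hc
  refine isNP_of_tt (O A) _
    (Q := fun z => strs (lg z.1.length) ++ (asks (2 * z.1.length + 8) c z.2).map E.g)
    (T := fun z => okN E.g M p K i0 i1 z.1.1 z.1.2 z.2) ?_ ?_ Polynomial.X fun x => ?_
  · have h1 : Poly (fun p : List Bool × List Bool => p.1) := Poly.fst Poly.id
    have h2 : Poly (fun p : List Bool × List Bool => p.2) := Poly.snd Poly.id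
    have h3 : UPoly (fun p : List Bool × List Bool => p.1.length) := UPoly.length h1
    exact Poly.append (p_strs_lg h3) (NPC.Poly.map (F := fun _ x => E.g x)
      (p_asks (UPoly.add (UPoly.mul (UPoly.const 2) h3) (UPoly.const 8)) (UPoly.const c) h2)
      (E.pg.comp (Poly.snd Poly.id)))
  · exact p_okN E.pg M p K i0 i1 (Poly.fst (Poly.fst Poly.id)) (Poly.snd (Poly.fst Poly.id))
      (Poly.snd Poly.id)
  · -- the value of the test
    have key : ∀ (i : ℕ), i1 ≤ i → x = List.replicate (T i) false → ∀ w : List Bool,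
        w.length = T i →
        (okN E.g M p K i0 i1 x w ((strs (lg x.length) ++
          (asks (2 * x.length + 8) c w).map E.g).map (O A)) = true ↔
          Hit (T i + ax (lv O M p K i0 A i)) (c, w) A) := by
      intro i hi hx w hw
      have hxl : x.length = T i := by rw [hx, List.length_replicate]
      have hix : ix (T i) = 2 * i + 1 := ix_tw (2 * i)
      have hi2 : (2 * i + 1) / 2 = i := by omega
      have e1 : (strs (lg (T i)) ++ (asks (2 * T i + 8) c w).map E.g).map (O A) =
          (strs (lg (T i))).map (O A) ++ (asks (2 * T i + 8) c w).map A := by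
        rw [List.map_append]
        congr 1
        rw [List.map_map]
        exact List.map_congr_left fun y _ => E.emb A y
      have e2 := selL_append (strs (lg (T i))) (O A) ((asks (2 * T i + 8) c w).map A)
      have e3 : levF E.g M p K i0 ((strs (lg (T i))).filter (O A)) (T i) i =
          lv O M p K i0 A i := levF_eq E ok (hi1.trans hi) fun y hy => ofL_filter' (O A) hy
      have e4 : ((strs (lg (T i))).map (O A) ++ (asks (2 * T i + 8) c w).map A).drop
          (strs (lg (T i))).length = (asks (2 * T i + 8) c w).map A := by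
        rw [List.drop_append_of_le_length (by simp), List.drop_of_length_le (by simp),
          List.nil_append]
      have hle : T i + ax (lv O M p K i0 A i) ≤ 2 * T i + 8 := by
        have h1 := ax_le' (lv O M p K i0 A i)
        have h2 := lv_le' (O := O) (M := M) (p := p) (K := K) (i0 := i0) A i
        have h3 := le_T i
        omega
      unfold okN
      rw [hxl, hix, hi2, e1, e2, e3, e4, min_eq_left hle, ← List.map_take, take_asks hle]
      rw [← hx]
      simp only [Bool.and_eq_true, decide_eq_true_eq]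
      rw [asks_all]
      constructor
      · exact fun h => h.2.2.2.2
      · exact fun h => ⟨trivial, trivial, hi, hw, h⟩
    rw [Polynomial.eval_X]
    constructor
    · rintro ⟨i, hi, hx, w, hw, hh⟩
      have hxl : x.length = T i := by rw [hx, List.length_replicate]
      exact ⟨w, by omega, (key i hi hx w hw).2 hh⟩
    · rintro ⟨w, -, ho⟩
      have ho' := ho
      unfold okN at ho'
      simp only [Bool.and_eq_true, decide_eq_true_eq] at ho'
      obtain ⟨h1, h2, h3, h4, -⟩ := ho'
      have h5 : x.length = T (ix x.length / 2) := tw_of_ix h2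
      have h6 : x = List.replicate (T (ix x.length / 2)) false := by rw [← h5]; exact h1
      refine ⟨ix x.length / 2, h3, h6, w, by rw [h4]; exact h5, ?_⟩
      exact (key _ h3 h6 w (by rw [h4]; exact h5)).1 ho

end Pool.Agent.J4H45.NPP
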